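import Mathlib
import Pool.Agent.R706.OreExt

/-!
# LSRC does not descend along Ore extensions with surjective twist

`R` is the free algebra over `ℚ` on `X_0, X_1, …` and `σ` is the surjective endomorphism with
`σ(X_0) = 0` and `σ(X_{i+1}) = X_i`.
-/

namespace Pool.Agent.Results.MP_5f6a82_al.FreeAlgebraShift

open Pool.Agent.R706 Finset

universe u v

/-- The left strong rank condition: for `n ≥ 1` there is no injective homomorphism of left
`A`-modules `A^(n+1) → A^n`. -/
def LSRC (A : Type u) [Ring A] : Prop :=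
  ∀ n : ℕ, 1 ≤ n → ¬ ∃ f : (Fin (n + 1) → A) →ₗ[A] (Fin n → A), Function.Injective f

/-- the free algebra over `ℚ` on countably many letters -/
abbrev R : Type := MonoidAlgebra ℚ (FreeMonoid ℕ)

/-- the letter `X_i` -/
noncomputable def X (i : ℕ) : R := MonoidAlgebra.single (FreeMonoid.of i) 1

/-- the shift `X_0 ↦ 0`, `X_{i+1} ↦ X_i` -/
noncomputable def shift : R →ₐ[ℚ] R :=
  MonoidAlgebra.lift ℚ R (FreeMonoid ℕ) (FreeMonoid.lift fun i => if i = 0 then 0 else X (i - 1))

theorem shift_X (i : ℕ) : shift (X i) = if i = 0 then 0 else X (i - 1) := by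
  simp [shift, X]

theorem shift_X_zero : shift (X 0) = 0 := by rw [shift_X]; simp

theorem shift_X_succ (i : ℕ) : shift (X (i + 1)) = X i := by rw [shift_X]; simp

theorem R_induction {p : R → Prop} (hc : ∀ c : ℚ, p (algebraMap ℚ R c)) (hX : ∀ i, p (X i))
    (hadd : ∀ a b, p a → p b → p (a + b)) (hmul : ∀ a b, p a → p b → p (a * b)) (r : R) : p r := by
  induction r using MonoidAlgebra.induction_linear with
  | zero => simpa using hc 0
  | add f g hf hg => exact hadd _ _ hf hg
  | single g c =>
    have h1 : (MonoidAlgebra.single g c : R) = algebraMap ℚ R c * MonoidAlgebra.single g 1 := by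
      simp
    rw [h1]
    apply hmul _ _ (hc c)
    induction g using FreeMonoid.inductionOn' with
    | one => simpa using hc 1
    | of_mul i g ih =>
      have : (MonoidAlgebra.single (FreeMonoid.of i * g) 1 : R) = X i * MonoidAlgebra.single g 1 := by
        simp [X, MonoidAlgebra.single_mul_single]
      rw [this]
      exact hmul _ _ (hX i) (ih (by simp))

theorem shift_surjective : Function.Surjective shift := by
  intro r
  induction r using R_induction with
  | hc c => exact ⟨algebraMap ℚ R c, shift.commutes c⟩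
  | hX i => exact ⟨X (i + 1), shift_X_succ i⟩
  | hadd a b ha hb =>
    obtain ⟨a', rfl⟩ := ha
    obtain ⟨b', rfl⟩ := hb
    exact ⟨a' + b', map_add _ _ _⟩
  | hmul a b ha hb =>
    obtain ⟨a', rfl⟩ := ha
    obtain ⟨b', rfl⟩ := hb
    exact ⟨a' * b', map_mul _ _ _⟩

theorem shift_pow_X (i m : ℕ) (h : i + 1 ≤ m) : (shift : R → R)^[m] (X i) = 0 := by
  obtain ⟨m, rfl⟩ : ∃ m', m = m' + 1 := ⟨m - 1, by omega⟩
  induction i generalizing m with
  | zero =>
    rw [Function.iterate_succ_apply, shift_X_zero]
    clear h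
    induction m with
    | zero => rfl
    | succ m ih => rw [Function.iterate_succ_apply, map_zero, ih]
  | succ i ih =>
    rw [Function.iterate_succ_apply, shift_X_succ]
    obtain ⟨m, rfl⟩ : ∃ m', m = m' + 1 := ⟨m - 1, by omega⟩
    exact ih m (by omega)

/-- every element becomes a scalar after sufficiently many shifts -/
theorem eventually_scalar (r : R) :
    ∃ (N : ℕ) (c : ℚ), ∀ m, N ≤ m → (shift : R → R)^[m] r = algebraMap ℚ R c := by
  induction r using R_induction with
  | hc c =>
    refine ⟨0, c, fun m _ => ?_⟩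
    induction m with
    | zero => rfl
    | succ m ih => rw [Function.iterate_succ_apply', ih (Nat.zero_le _), shift.commutes]
  | hX i => exact ⟨i + 1, 0, fun m hm => by rw [shift_pow_X i m hm, map_zero]⟩
  | hadd a b ha hb =>
    obtain ⟨N, c, h⟩ := ha
    obtain ⟨N', c', h'⟩ := hb
    refine ⟨max N N', c + c', fun m hm => ?_⟩
    rw [iterate_map_add, h m (le_trans (le_max_left _ _) hm),
      h' m (le_trans (le_max_right _ _) hm), map_add]
  | hmul a b ha hb =>
    obtain ⟨N, c, h⟩ := ha
    obtain ⟨N', c', h'⟩ := hb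
    refine ⟨max N N', c * c', fun m hm => ?_⟩
    rw [iterate_map_mul, h m (le_trans (le_max_left _ _) hm),
      h' m (le_trans (le_max_right _ _) hm), map_mul]

/-! ### The free algebra fails LSRC -/

theorem coeff_mul_X (a : R) (i j : ℕ) (w : FreeMonoid ℕ) :
    (a * X i : R).coeff (w * FreeMonoid.of j) = if i = j then a.coeff w else 0 := by
  classical
  split_ifs with h
  · subst h
    rw [X, MonoidAlgebra.coeff_mul_single_eq_coeff_mul w, mul_one]
    intro b _
    exact mul_left_inj _
  · rw [X, MonoidAlgebra.coeff_mul_single_of_forall_mul_ne]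
    intro d hd
    have h1 := congrArg FreeMonoid.toList hd
    rw [FreeMonoid.toList_mul, FreeMonoid.toList_mul, FreeMonoid.toList_of, FreeMonoid.toList_of] at h1
    have h2 := congrArg List.getLast? h1
    simp at h2
    exact h h2

theorem not_LSRC_R : ¬ LSRC R := by
  intro h
  refine h 1 le_rfl ⟨{ toFun := fun v _ => v 0 * X 0 + v 1 * X 1, map_add' := ?_, map_smul' := ?_ }, ?_⟩
  · intro v w
    ext1 i
    simp only [Pi.add_apply, add_mul]
    abel
  · intro r v
    ext1 i
    simp [mul_add, mul_assoc]
  · rw [injective_iff_map_eq_zero]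
    intro v hv
    have h1 : v 0 * X 0 + v 1 * X 1 = 0 := congrFun hv 0
    have h2 : ∀ (j : ℕ) (w : FreeMonoid ℕ), (if 0 = j then (v 0).coeff w else 0) +
        (if 1 = j then (v 1).coeff w else 0) = 0 := by
      intro j w
      rw [← coeff_mul_X, ← coeff_mul_X, ← Finsupp.add_apply, ← MonoidAlgebra.coeff_add, h1]
      rfl
    have h3 : v 0 = 0 := by
      ext w
      simpa using h2 0 w
    have h4 : v 1 = 0 := by
      ext w
      simpa using h2 1 w
    ext1 i
    fin_cases i
    · exact h3
    · exact h4

/-! ### The Ore extension satisfies LSRC -/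

section Ore
variable {A : Type v} [Ring A] {ι : R →+* A} {x : A}

/-- the embedding of the commutative polynomial ring over `ℚ` -/
noncomputable def theta (ι : R →+* A) (x : A)
    (h : ∀ c : ℚ, Commute (ι (algebraMap ℚ R c)) x) : Polynomial ℚ →+* A :=
  Polynomial.eval₂RingHom' (ι.comp (algebraMap ℚ R)) x h

theorem comm_scalar (hA : IsOreExtension (shift : R →+* R) 0 ι x) (c : ℚ) :
    Commute (ι (algebraMap ℚ R c)) x := by
  have := hA.comm (algebraMap ℚ R c)
  have h2 : (shift : R →+* R) (algebraMap ℚ R c) = algebraMap ℚ R c := shift.commutes c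
  rw [h2] at this
  simp only [AddMonoidHom.zero_apply, map_zero, add_zero] at this
  exact this.symm

theorem theta_injective (hA : IsOreExtension (shift : R →+* R) 0 ι x) :
    Function.Injective (theta ι x (comm_scalar hA)) := by
  rw [injective_iff_map_eq_zero]
  intro p hp
  have hsub : ∀ i, algebraMap ℚ R (p.coeff i) ≠ 0 → i ∈ p.support := by
    intro i hi
    rw [Polynomial.mem_support_iff]
    intro h0
    rw [h0, map_zero] at hi
    exact hi rfl
  let f : ℕ →₀ R := Finsupp.onFinset p.support (fun i => algebraMap ℚ R (p.coeff i)) hsub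
  have h1 : f.sum (fun i r => ι r * x ^ i) = theta ι x (comm_scalar hA) p := by
    rw [Finsupp.onFinset_sum _ (by simp)]
    simp [theta, Polynomial.eval₂_eq_sum, Polynomial.sum_def]
  have h2 : f = 0 := by
    apply hA.bij.1
    show f.sum (fun i r => ι r * x ^ i) = (0 : ℕ →₀ R).sum (fun i r => ι r * x ^ i)
    rw [h1, hp, Finsupp.sum_zero_index]
  ext i
  have h3 : algebraMap ℚ R (p.coeff i) = 0 := DFunLike.congr_fun h2 i
  rw [Polynomial.coeff_zero]
  exact (map_eq_zero_iff _ (algebraMap ℚ R).injective).1 h3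

theorem xpow_comm (hA : IsOreExtension (shift : R →+* R) 0 ι x) (m : ℕ) (r : R) :
    x ^ m * ι r = ι ((shift : R → R)^[m] r) * x ^ m := by
  induction m generalizing r with
  | zero => simp
  | succ m ih =>
    rw [pow_succ, mul_assoc, hA.comm, AddMonoidHom.zero_apply, map_zero, add_zero, ← mul_assoc, ih,
      Function.iterate_succ_apply, mul_assoc]
    rfl

theorem eventually (hA : IsOreExtension (shift : R →+* R) 0 ι x) (a : A) :
    ∃ (N : ℕ) (p : Polynomial ℚ), ∀ m, N ≤ m → x ^ m * a = theta ι x (comm_scalar hA) p * x ^ m := by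
  obtain ⟨f, rfl⟩ := hA.bij.2 a
  show ∃ (N : ℕ) (p : Polynomial ℚ), ∀ m, N ≤ m → x ^ m * (f.sum fun i r => ι r * x ^ i) =
    theta ι x (comm_scalar hA) p * x ^ m
  induction f using Finsupp.induction_linear with
  | zero => exact ⟨0, 0, fun m _ => by simp⟩
  | add f g hf hg =>
    obtain ⟨N, p, h⟩ := hf
    obtain ⟨N', p', h'⟩ := hg
    refine ⟨max N N', p + p', fun m hm => ?_⟩
    rw [Finsupp.sum_add_index', mul_add, h m (le_trans (le_max_left _ _) hm),
      h' m (le_trans (le_max_right _ _) hm), map_add, add_mul]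
    · simp
    · intro i r s
      rw [map_add, add_mul]
  | single i r =>
    obtain ⟨N, c, h⟩ := eventually_scalar r
    refine ⟨N, Polynomial.C c * Polynomial.X ^ i, fun m hm => ?_⟩
    rw [Finsupp.sum_single_index (by simp), ← mul_assoc, xpow_comm hA, h m hm, map_mul, map_pow]
    have e1 : theta ι x (comm_scalar hA) (Polynomial.C c) = ι (algebraMap ℚ R c) := by
      simp [theta]
    have e2 : theta ι x (comm_scalar hA) Polynomial.X = x := by
      simp [theta]
    rw [e1, e2, mul_assoc, mul_assoc, ← pow_add, ← pow_add, add_comm]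

theorem LSRC_ore (hA : IsOreExtension (shift : R →+* R) 0 ι x) : LSRC A := by
  rintro n hn ⟨f, hf⟩
  -- the matrix of `f`
  let C : Fin (n + 1) → Fin n → A := fun i j => f (Pi.single i 1) j
  have hC : ∀ v j, f v j = ∑ i, v i * C i j := by
    intro v j
    have : v = ∑ i, v i • (Pi.single i (1 : A) : Fin (n + 1) → A) := by
      ext k
      simp [Finset.sum_apply, Pi.single_apply]
    conv_lhs => rw [this]
    rw [map_sum, Finset.sum_apply]
    simp [C]
  have h1 : ∀ i j, ∃ (N : ℕ) (p : Polynomial ℚ), ∀ m, N ≤ m →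
      x ^ m * C i j = theta ι x (comm_scalar hA) p * x ^ m := fun i j => eventually hA _
  choose N p hN using h1
  let M := ∑ i, ∑ j, N i j
  have hM : ∀ i j, N i j ≤ M := by
    intro i j
    have h2 : N i j ≤ ∑ j, N i j := Finset.single_le_sum (fun _ _ => Nat.zero_le _) (Finset.mem_univ j)
    have h3 : ∑ j, N i j ≤ ∑ i, ∑ j, N i j :=
      Finset.single_le_sum (f := fun i => ∑ j, N i j) (fun _ _ => Nat.zero_le _) (Finset.mem_univ i)
    omega
  -- a relation over the commutative ring `ℚ[X]`
  obtain ⟨w, hw0, hw⟩ : ∃ w : Fin (n + 1) → Polynomial ℚ, w ≠ 0 ∧ ∀ j, ∑ i, w i * p i j = 0 := by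
    by_contra hcon
    push Not at hcon
    let g : (Fin (n + 1) → Polynomial ℚ) →ₗ[Polynomial ℚ] (Fin n → Polynomial ℚ) :=
      { toFun := fun w j => ∑ i, w i * p i j
        map_add' := fun v w => by ext1 j; simp [add_mul, Finset.sum_add_distrib]
        map_smul' := fun r v => by ext1 j; simp [Finset.mul_sum, mul_assoc] }
    have hg : Function.Injective g := by
      rw [injective_iff_map_eq_zero]
      intro v hv
      by_contra hv0
      obtain ⟨j, hj⟩ := hcon v hv0
      exact hj (congrFun hv j)
    have := le_of_fin_injective (Polynomial ℚ) g hg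
    omega
  have h5 : (fun i => theta ι x (comm_scalar hA) (w i) * x ^ M) = 0 := by
    apply hf
    rw [map_zero]
    ext1 j
    rw [hC, Pi.zero_apply]
    calc ∑ i, theta ι x (comm_scalar hA) (w i) * x ^ M * C i j
        = ∑ i, theta ι x (comm_scalar hA) (w i * p i j) * x ^ M := by
          apply Finset.sum_congr rfl
          intro i _
          rw [mul_assoc, hN i j M (hM i j), map_mul, mul_assoc]
      _ = 0 := by rw [← Finset.sum_mul, ← map_sum, hw, map_zero, zero_mul]
  apply hw0
  ext1 i
  have h6 := congrFun h5 i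
  have e2 : theta ι x (comm_scalar hA) Polynomial.X = x := by
    simp [theta]
  rw [Pi.zero_apply] at h6
  have h8 : theta ι x (comm_scalar hA) (w i * Polynomial.X ^ M) = 0 := by
    rw [map_mul, map_pow, e2, h6]
  rw [map_eq_zero_iff _ (theta_injective hA)] at h8
  rcases mul_eq_zero.1 h8 with h7 | h7
  · exact h7
  · exact absurd h7 (pow_ne_zero _ Polynomial.X_ne_zero)

end Ore

/-- **LSRC does not descend along Ore extensions with surjective twist.**  There are a ring `R`
failing the left strong rank condition and a surjective endomorphism `σ` of `R` such that the Ore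
extension `R[x; σ]` (with `δ = 0`) satisfies the left strong rank condition. -/
theorem result : ∃ (R : Type) (_ : Ring R) (σ : R →+* R), Function.Surjective σ ∧ ¬ LSRC R ∧
    ∃ (A : Type) (_ : Ring A) (ι : R →+* A) (x : A), IsOreExtension σ 0 ι x ∧ LSRC A := by
  refine ⟨R, inferInstance, shift, shift_surjective, not_LSRC_R, ?_⟩
  obtain ⟨A, _, ι, x, h⟩ := exists_oreExtension (shift : R →+* R) 0 (by simp)
  exact ⟨A, _, ι, x, h, LSRC_ore h⟩

end Pool.Agent.Results.MP_5f6a82_al.FreeAlgebraShift
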